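import Pool.Agent.H98.SLN.Targets

/-!
# Moments of sums of the charges (MP_65efe8_pr, row FOU)
-/

set_option autoImplicit false

open MeasureTheory ProbabilityTheory Filter Topology
open scoped ENNReal
open Pool.Agent.H95 Pool.Agent.H95.Cop
open Pool.Agent.H98.SLN

namespace Pool.Agent.H19.SLN

/-- centred sums -/
noncomputable def cs (m : ℝ) (k : ℕ) (x : ℕ → ℝ) : ℝ := ∑ i ∈ Finset.range k, (x i - m)

lemma cs_succ (m : ℝ) (k : ℕ) (x : ℕ → ℝ) :
    cs m (k + 1) x = (x 0 - m) + cs m k (shift 1 x) := by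
  unfold cs
  rw [Finset.sum_range_succ', add_comm]
  rfl

lemma H_cs (m : ℝ) (k : ℕ) (x : ℕ → ℝ) : H x 0 k = cs m k x + k * m := by
  unfold H cs
  rw [Finset.sum_sub_distrib, ← Finset.range_eq_Ico]
  simp

lemma measurable_cs (m : ℝ) (k : ℕ) : Measurable (cs m k) := by
  unfold cs
  fun_prop

lemma abs_pow_le (t : ℝ) (i : ℕ) (hi : i ≤ 4) : |t ^ i| ≤ 1 + t ^ 4 := by
  rw [abs_pow]
  rcases le_total |t| 1 with h | h
  · have h1 : |t| ^ i ≤ 1 := pow_le_one₀ (abs_nonneg t) h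
    have h2 : 0 ≤ t ^ 4 := by positivity
    linarith
  · have h1 : |t| ^ i ≤ |t| ^ 4 := pow_le_pow_right₀ h hi
    have h2 : |t| ^ 4 = t ^ 4 := by
      rw [← abs_pow]
      exact abs_of_nonneg (by positivity)
    linarith

lemma four_le (a b : ℝ) : (a + b) ^ 4 ≤ 8 * (a ^ 4 + b ^ 4) := by
  have h1 : (a + b) ^ 2 ≤ 2 * (a ^ 2 + b ^ 2) := by nlinarith [sq_nonneg (a - b)]
  have h2 : ((a + b) ^ 2) ^ 2 ≤ (2 * (a ^ 2 + b ^ 2)) ^ 2 := pow_le_pow_left₀ (sq_nonneg _) h1 2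
  have h3 : (2 * (a ^ 2 + b ^ 2)) ^ 2 ≤ 8 * (a ^ 4 + b ^ 4) := by
    nlinarith [sq_nonneg (a ^ 2 - b ^ 2)]
  calc (a + b) ^ 4 = ((a + b) ^ 2) ^ 2 := by ring
    _ ≤ _ := h2.trans h3

lemma int_pow (ν : Measure ℝ) [IsProbabilityMeasure ν] (h4 : Integrable (fun z => z ^ 4) ν)
    (m : ℝ) (i : ℕ) (hi : i ≤ 4) : Integrable (fun z => (z - m) ^ i) ν := by
  refine Integrable.mono' (g := fun z => 1 + 8 * (z ^ 4 + m ^ 4)) ?_ (by fun_prop) ?_
  · exact (integrable_const 1).add ((h4.add (integrable_const _)).const_mul 8)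
  · filter_upwards with z
    rw [Real.norm_eq_abs]
    have h1 := abs_pow_le (z - m) i hi
    have h2 := four_le z (-m)
    have h3 : (-m) ^ 4 = m ^ 4 := by ring
    rw [h3] at h2
    have h4 : z + -m = z - m := by ring
    rw [h4] at h2
    linarith

/-- the integral of a linear combination -/
lemma lin3 {Ω : Type*} [MeasurableSpace Ω] (μ : Measure Ω) [IsProbabilityMeasure μ]
    (f g : Ω → ℝ) (c d : ℝ) (hf : Integrable f μ) (hg : Integrable g μ) :
    ∫ x, (f x + c * g x + d) ∂μ = (∫ x, f x ∂μ) + c * (∫ x, g x ∂μ) + d := by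
  have h1 : Integrable (fun x => f x + c * g x) μ := hf.add (hg.const_mul c)
  have h2 : ∫ x, (f x + c * g x + d) ∂μ = (∫ x, (f x + c * g x) ∂μ) + ∫ _x, d ∂μ :=
    integral_add h1 (integrable_const d)
  have h3 : ∫ x, (f x + c * g x) ∂μ = (∫ x, f x ∂μ) + ∫ x, c * g x ∂μ :=
    integral_add hf (hg.const_mul c)
  rw [h2, h3, integral_const_mul]
  simp

/-- independence of the first coordinate and the others -/
lemma mulI (ν : Measure ℝ) [IsProbabilityMeasure ν] (F : ℝ → ℝ) (G : (ℕ → ℝ) → ℝ)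
    (hFm : Measurable F) (hGm : Measurable G)
    (hF : Integrable F ν) (hG : Integrable G (iid ν)) :
    Integrable (fun x : ℕ → ℝ => F (x 0) * G (shift 1 x)) (iid ν) ∧
      ∫ x : ℕ → ℝ, F (x 0) * G (shift 1 x) ∂(iid ν) = (∫ z, F z ∂ν) * ∫ x, G x ∂(iid ν) := by
  have he : MeasurePreserving (fun x : ℕ → ℝ => x 0) (iid ν) ν :=
    measurePreserving_eval_infinitePi (fun _ : ℕ => ν) 0
  have hF0 : Integrable (fun x : ℕ → ℝ => F (x 0)) (iid ν) :=
    he.integrable_comp_of_integrable hF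
  have hdep : DepLt 1 (fun x : ℕ → ℝ => F (x 0)) := by
    intro x x' h
    simp only
    rw [h 0 (by norm_num)]
  have hm : Measurable (fun x : ℕ → ℝ => F (x 0) * G (shift 1 x)) :=
    (hFm.comp (measurable_pi_apply 0)).mul (hGm.comp (measurable_shift 1))
  refine ⟨?_, ?_⟩
  · have hmp := measurePreserving_splice ν 1
    rw [← hmp.integrable_comp hm.aestronglyMeasurable]
    have h2 : (fun x : ℕ → ℝ => F (x 0) * G (shift 1 x)) ∘ (splice 1) =
        fun q : (ℕ → ℝ) × (ℕ → ℝ) => F (q.1 0) * G q.2 := by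
      funext q
      simp only [Function.comp_apply, shift_splice]
      rfl
    rw [h2]
    exact hF0.mul_prod hG
  · have h1 := integral_mul_shift ν (g := G) hdep hF0.aestronglyMeasurable
      hG.aestronglyMeasurable
    have h3 : ∫ x : ℕ → ℝ, F (x 0) ∂(iid ν) = ∫ z, F z ∂ν := by
      have h4 := he.map_eq
      conv_rhs => rw [← h4]
      rw [integral_map he.measurable.aemeasurable hFm.aestronglyMeasurable]
    rw [h1, h3]

/-- the moments of the centred sums -/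
lemma mom (ν : Measure ℝ) [IsProbabilityMeasure ν] (h4 : Integrable (fun z => z ^ 4) ν)
    (m : ℝ) (k : ℕ) (hk : ∀ j, j ≤ 4 → Integrable (fun x : ℕ → ℝ => cs m k x ^ j) (iid ν))
    (j : ℕ) (hj : j ≤ 4) :
    Integrable (fun x : ℕ → ℝ => cs m (k + 1) x ^ j) (iid ν) ∧
      ∫ x : ℕ → ℝ, cs m (k + 1) x ^ j ∂(iid ν) = ∑ i ∈ Finset.range (j + 1),
        ((∫ z, (z - m) ^ i ∂ν) * ∫ x : ℕ → ℝ, cs m k x ^ (j - i) ∂(iid ν)) * (j.choose i : ℝ) := by
  have e : ∀ x : ℕ → ℝ, cs m (k + 1) x ^ j = ∑ i ∈ Finset.range (j + 1),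
      ((x 0 - m) ^ i * cs m k (shift 1 x) ^ (j - i)) * (j.choose i : ℝ) := by
    intro x
    rw [cs_succ, add_pow]
  have hI : ∀ i ∈ Finset.range (j + 1),
      Integrable (fun x : ℕ → ℝ =>
        ((x 0 - m) ^ i * cs m k (shift 1 x) ^ (j - i)) * (j.choose i : ℝ)) (iid ν) ∧
      ∫ x : ℕ → ℝ, ((x 0 - m) ^ i * cs m k (shift 1 x) ^ (j - i)) * (j.choose i : ℝ) ∂(iid ν) =
        ((∫ z, (z - m) ^ i ∂ν) * ∫ x : ℕ → ℝ, cs m k x ^ (j - i) ∂(iid ν)) *
          (j.choose i : ℝ) := by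
    intro i hi
    have hi' : i ≤ j := Nat.lt_succ_iff.mp (Finset.mem_range.mp hi)
    have h1 := mulI ν (fun z => (z - m) ^ i) (fun x => cs m k x ^ (j - i)) (by fun_prop)
      ((measurable_cs m k).pow_const _) (int_pow ν h4 m i (hi'.trans hj))
      (hk (j - i) ((Nat.sub_le _ _).trans hj))
    refine ⟨h1.1.mul_const _, ?_⟩
    rw [integral_mul_const, h1.2]
  simp_rw [e]
  refine ⟨integrable_finsetSum _ fun i hi => (hI i hi).1, ?_⟩
  rw [integral_finsetSum _ fun i hi => (hI i hi).1]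
  exact Finset.sum_congr rfl fun i hi => (hI i hi).2

/-- the moments of the centred sums, values -/
lemma moms (ν : Measure ℝ) [IsProbabilityMeasure ν] (h4 : Integrable (fun z => z ^ 4) ν)
    (m a2 a4 : ℝ) (h1 : ∫ z, (z - m) ∂ν = 0) (h2 : ∫ z, (z - m) ^ 2 ∂ν = a2)
    (h4' : ∫ z, (z - m) ^ 4 ∂ν = a4) (k : ℕ) :
    (∀ j, j ≤ 4 → Integrable (fun x : ℕ → ℝ => cs m k x ^ j) (iid ν)) ∧
    ∫ x : ℕ → ℝ, cs m k x ∂(iid ν) = 0 ∧
    ∫ x : ℕ → ℝ, cs m k x ^ 2 ∂(iid ν) = k * a2 ∧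
    ∫ x : ℕ → ℝ, cs m k x ^ 4 ∂(iid ν) = k * a4 + 3 * k * (k - 1) * a2 ^ 2 := by
  induction k with
  | zero =>
    have e : ∀ x : ℕ → ℝ, cs m 0 x = 0 := fun x => by simp [cs]
    simp [e]
  | succ k ih =>
    obtain ⟨hi, i1, i2, i4⟩ := ih
    have key := mom ν h4 m k hi
    refine ⟨fun j hj => (key j hj).1, ?_, ?_, ?_⟩
    · have h := (key 1 (by norm_num)).2
      simp only [pow_one] at h
      rw [h]
      simp [Finset.sum_range_succ, h1, i1]
    · rw [(key 2 (by norm_num)).2]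
      simp only [Finset.sum_range_succ, Finset.range_zero, Finset.sum_empty, pow_zero, pow_one,
        Nat.sub_zero, Nat.sub_self, h1, h2, i2]
      simp [i1]
      ring
    · rw [(key 4 (by norm_num)).2]
      have c1 : Nat.choose 4 1 = 4 := rfl
      have c2 : Nat.choose 4 2 = 6 := rfl
      have c3 : Nat.choose 4 3 = 4 := rfl
      simp only [Finset.sum_range_succ, Finset.range_zero, Finset.sum_empty, pow_zero, pow_one,
        Nat.sub_zero, Nat.sub_self, h1, h2, h4', i4, Nat.choose_zero_right, Nat.choose_self, c1,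
        c2, c3]
      have s2 : 4 - 2 = 2 := rfl
      have s3 : 4 - 3 = 1 := rfl
      simp only [s2, s3, i2, pow_one, i1]
      simp
      ring

theorem pf_FOU : T_FOU := by
  intro ν hν h4 k
  set m : ℝ := ∫ z, z ∂ν with hm
  set m2 : ℝ := ∫ z, z ^ 2 ∂ν with hm2
  set m4 : ℝ := ∫ z, z ^ 4 ∂ν with hm4
  have p1 : Integrable (fun z : ℝ => z) ν := by
    have := int_pow ν h4 0 1 (by norm_num)
    simpa using this
  have p2 : Integrable (fun z : ℝ => z ^ 2) ν := by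
    have := int_pow ν h4 0 2 (by norm_num)
    simpa using this
  have h1 : ∫ z, (z - m) ∂ν = 0 := by
    rw [integral_sub p1 (integrable_const _)]
    simp [hm]
  have h2 : ∫ z, (z - m) ^ 2 ∂ν = m2 - m ^ 2 := by
    have e : ∀ z : ℝ, (z - m) ^ 2 = z ^ 2 + -(2 * m) * z + m ^ 2 := fun z => by ring
    simp_rw [e]
    rw [lin3 ν (fun z => z ^ 2) (fun z => z) (-(2 * m)) (m ^ 2) p2 p1, ← hm, ← hm2]
    ring
  set a2 : ℝ := m2 - m ^ 2 with ha2
  set a4 : ℝ := ∫ z, (z - m) ^ 4 ∂ν with ha4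
  have a20 : 0 ≤ a2 := by
    rw [← h2]
    exact integral_nonneg fun z => sq_nonneg _
  have m20 : 0 ≤ m2 := integral_nonneg fun z => sq_nonneg _
  have q2 : m2 ^ 2 ≤ m4 := by
    have h : 0 ≤ ∫ z, (z ^ 2 - m2) ^ 2 ∂ν := integral_nonneg fun z => sq_nonneg _
    have e : ∀ z : ℝ, (z ^ 2 - m2) ^ 2 = z ^ 4 + -(2 * m2) * z ^ 2 + m2 ^ 2 := fun z => by ring
    simp_rw [e] at h
    rw [lin3 ν (fun z => z ^ 4) (fun z => z ^ 2) (-(2 * m2)) (m2 ^ 2) h4 p2, ← hm4, ← hm2] at h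
    nlinarith
  have hm4' : m ^ 4 ≤ m4 := by
    have : m ^ 2 ≤ m2 := by linarith
    have h5 : (m ^ 2) ^ 2 ≤ m2 ^ 2 := pow_le_pow_left₀ (sq_nonneg _) this 2
    calc m ^ 4 = (m ^ 2) ^ 2 := by ring
      _ ≤ m4 := h5.trans q2
  have a4le : a4 ≤ 16 * m4 := by
    have : a4 ≤ ∫ z, 8 * (z ^ 4 + m ^ 4) ∂ν := by
      refine integral_mono (int_pow ν h4 m 4 le_rfl)
        ((h4.add (integrable_const _)).const_mul 8) fun z => ?_
      have h5 := four_le z (-m)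
      have h6 : (-m) ^ 4 = m ^ 4 := by ring
      rw [h6] at h5
      have h7 : z + -m = z - m := by ring
      rw [h7] at h5
      exact h5
    rw [integral_const_mul, integral_add h4 (integrable_const _)] at this
    simp only [integral_const, probReal_univ, smul_eq_mul, one_mul] at this
    rw [← hm4] at this
    linarith
  obtain ⟨hi, i1, i2, i4⟩ := moms ν h4 m a2 a4 h1 h2 rfl k
  have hi1 : Integrable (fun x : ℕ → ℝ => cs m k x) (iid ν) := by
    have := hi 1 (by norm_num)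
    simpa using this
  have hi2 := hi 2 (by norm_num)
  have hi3 := hi 3 (by norm_num)
  have hi4 := hi 4 (by norm_num)
  have e2 : ∀ x : ℕ → ℝ, H x 0 k ^ 2 = cs m k x ^ 2 + 2 * (k * m) * cs m k x + (k * m) ^ 2 := by
    intro x
    rw [H_cs m]
    ring
  have e4 : ∀ x : ℕ → ℝ, H x 0 k ^ 4 = cs m k x ^ 4 + 4 * (k * m) * cs m k x ^ 3 +
      6 * (k * m) ^ 2 * cs m k x ^ 2 + 4 * (k * m) ^ 3 * cs m k x + (k * m) ^ 4 := by
    intro x
    rw [H_cs m]
    ring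
  have I2 : Integrable (fun x : ℕ → ℝ => H x 0 k ^ 2) (iid ν) := by
    simp_rw [e2]
    exact (hi2.add (hi1.const_mul _)).add (integrable_const _)
  have I4 : Integrable (fun x : ℕ → ℝ => H x 0 k ^ 4) (iid ν) := by
    simp_rw [e4]
    exact (((hi4.add (hi3.const_mul _)).add (hi2.const_mul _)).add (hi1.const_mul _)).add
      (integrable_const _)
  have v2 : ∫ x : ℕ → ℝ, H x 0 k ^ 2 ∂(iid ν) = k * a2 + (k * m) ^ 2 := by
    simp_rw [e2]
    rw [lin3 (iid ν) (fun x => cs m k x ^ 2) (fun x => cs m k x) (2 * (k * m)) ((k * m) ^ 2)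
      hi2 hi1, i1, i2]
    ring
  have hk0 : (0 : ℝ) ≤ k := Nat.cast_nonneg k
  have hkk : (0 : ℝ) ≤ (k : ℝ) ^ 2 - k := by
    rcases Nat.eq_zero_or_pos k with h | h
    · rw [h]; simp
    · have : (1 : ℝ) ≤ k := by exact_mod_cast h
      nlinarith
  refine ⟨I4, I2, ?_, ?_, ?_⟩
  · rw [v2, ha2]
    have : 0 ≤ ((k : ℝ) ^ 2 - k) * m ^ 2 := mul_nonneg hkk (sq_nonneg _)
    nlinarith
  · rw [v2, ha2]
    have : 0 ≤ (k : ℝ) * m ^ 2 := mul_nonneg hk0 (sq_nonneg _)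
    nlinarith
  · have hle : ∫ x : ℕ → ℝ, H x 0 k ^ 4 ∂(iid ν) ≤
        ∫ x : ℕ → ℝ, 8 * (cs m k x ^ 4 + (k * m) ^ 4) ∂(iid ν) := by
      refine integral_mono I4 ((hi4.add (integrable_const _)).const_mul 8) fun x => ?_
      simp only
      rw [H_cs m]
      exact four_le _ _
    rw [integral_const_mul, integral_add hi4 (integrable_const _), i4] at hle
    simp only [integral_const, probReal_univ, smul_eq_mul, one_mul] at hle
    have b1 : (k : ℝ) * a4 ≤ k * (16 * m4) := mul_le_mul_of_nonneg_left a4le hk0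
    have b2 : a2 ^ 2 ≤ m2 ^ 2 := pow_le_pow_left₀ a20 (by rw [ha2]; nlinarith [sq_nonneg m]) 2
    have b3 : 3 * (k : ℝ) * (k - 1) * a2 ^ 2 ≤ 3 * (k : ℝ) ^ 2 * m2 ^ 2 := by
      have c1 : 3 * (k : ℝ) * (k - 1) ≤ 3 * (k : ℝ) ^ 2 := by nlinarith
      have c2 : 0 ≤ 3 * (k : ℝ) ^ 2 := by positivity
      calc 3 * (k : ℝ) * (k - 1) * a2 ^ 2 ≤ 3 * (k : ℝ) ^ 2 * a2 ^ 2 :=
            mul_le_mul_of_nonneg_right c1 (sq_nonneg _)
        _ ≤ _ := mul_le_mul_of_nonneg_left b2 c2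
    have b4 : ((k : ℝ) * m) ^ 4 = (k : ℝ) ^ 4 * m ^ 4 := by ring
    rw [b4] at hle
    linarith

end Pool.Agent.H19.SLN
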