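import Pool.Agent.H98.SLN.Targets
import Pool.Agent.H98.CE.ASM

/-!
# The lower bound for `α = 1` (MP_65efe8_pr, row LWB)
-/

set_option autoImplicit false

open MeasureTheory ProbabilityTheory Filter Topology
open scoped ENNReal
open Pool.Agent.H95 Pool.Agent.H95.Cop
open Pool.Agent.H55.CG (pz VV Mo)
open Pool.Agent.H98.CE (pc WB HK OBJ)
open Pool.Agent.H96.Cop (ex pk Wn chargeLaw)
open Pool.Agent.H99.CE (NX)
open Pool.Agent.H98.SLN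

namespace Pool.Agent.H19.SLN

/-- the number of the sites of a cell tends to infinity -/
lemma tendsto_cell : Tendsto (fun lam : ℝ => ⌈1 / lam ^ 2⌉₊) (𝓝[>] (0 : ℝ)) atTop := by
  have h1 : Tendsto (fun lam : ℝ => 1 / lam ^ 2) (𝓝[>] (0 : ℝ)) atTop := by
    have h2 : Tendsto (fun lam : ℝ => lam ^ 2) (𝓝[>] (0 : ℝ)) (𝓝[>] (0 : ℝ)) := by
      rw [tendsto_nhdsWithin_iff]
      refine ⟨?_, ?_⟩
      · have : Tendsto (fun lam : ℝ => lam ^ 2) (𝓝 (0 : ℝ)) (𝓝 (0 ^ 2)) :=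
          (continuous_pow 2).tendsto 0
        rw [zero_pow two_ne_zero] at this
        exact this.mono_left nhdsWithin_le_nhds
      · filter_upwards [self_mem_nhdsWithin] with lam hlam
        have hlam1 : 0 < lam := hlam
        exact pow_pos hlam1 2
    simp_rw [one_div]
    exact tendsto_inv_nhdsGT_zero.comp h2
  exact tendsto_nat_ceil_atTop.comp h1

/-- logarithm of the number of the sites of a cell -/
lemma log_cell (lam : ℝ) (h0 : 0 < lam) (h1 : lam ≤ 1 / 2) :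
    Real.log ⌈1 / lam ^ 2⌉₊ ≤ 3 * Real.log (1 / lam) := by
  have hl : 0 < 1 / lam := by positivity
  have hc : (0 : ℝ) < ⌈1 / lam ^ 2⌉₊ := by
    have : 0 < ⌈1 / lam ^ 2⌉₊ := Nat.ceil_pos.mpr (by positivity)
    exact_mod_cast this
  have h2 : 2 ≤ 1 / lam := by
    rw [le_div_iff₀ h0]
    linarith
  have h3 : (⌈1 / lam ^ 2⌉₊ : ℝ) ≤ (1 / lam) ^ 3 := by
    have h4 : (⌈1 / lam ^ 2⌉₊ : ℝ) < 1 / lam ^ 2 + 1 := Nat.ceil_lt_add_one (by positivity)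
    have h5 : 1 / lam ^ 2 = (1 / lam) ^ 2 := by rw [div_pow, one_pow]
    rw [h5] at h4
    have h6 : (1 / lam) ^ 2 + 1 ≤ (1 / lam) ^ 3 := by nlinarith [sq_nonneg (1 / lam)]
    rw [h5]
    linarith
  calc Real.log ⌈1 / lam ^ 2⌉₊ ≤ Real.log ((1 / lam) ^ 3) := Real.log_le_log hc h3
    _ = 3 * Real.log (1 / lam) := by rw [Real.log_pow]; norm_num

/-- fourth roots -/
lemma root_le (L δ : ℝ) (hL : 0 < L) (hδ : 1 / (16 * L) ≤ δ) :
    1 / 2 * L ^ (-(1 / 4) : ℝ) ≤ δ ^ (1 / 4 : ℝ) := by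
  have h1 : (1 / (16 * L)) ^ (1 / 4 : ℝ) ≤ δ ^ (1 / 4 : ℝ) :=
    Real.rpow_le_rpow (by positivity) hδ (by norm_num)
  have h2 : (1 / (16 * L)) ^ (1 / 4 : ℝ) = 1 / 2 * L ^ (-(1 / 4) : ℝ) := by
    have h3 : 1 / (16 * L) = (1 / 2) ^ 4 * L⁻¹ := by
      field_simp
      norm_num
    rw [h3, Real.mul_rpow (by positivity) (by positivity), Real.rpow_neg hL.le,
      Real.inv_rpow hL.le, ← Real.rpow_natCast, ← Real.rpow_mul (by norm_num)]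
    norm_num
  linarith

/-- eventually -/
lemma evt (δ4 : ℝ) (h4 : 0 < δ4) : ∀ᶠ lam in 𝓝[>] (0 : ℝ),
    1 / Real.log ⌈1 / lam ^ 2⌉₊ < δ4 := by
  have h1 : Tendsto (fun lam : ℝ => Real.log ⌈1 / lam ^ 2⌉₊) (𝓝[>] (0 : ℝ)) atTop :=
    Real.tendsto_log_atTop.comp (tendsto_natCast_atTop_atTop.comp tendsto_cell)
  have h2 : Tendsto (fun lam : ℝ => 1 / Real.log ⌈1 / lam ^ 2⌉₊) (𝓝[>] (0 : ℝ)) (𝓝 0) := by
    simp_rw [one_div (Real.log _)]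
    exact tendsto_inv_atTop_zero.comp h1
  exact h2.eventually (Iio_mem_nhds h4)

lemma evl : ∀ᶠ lam in 𝓝[>] (0 : ℝ), lam * Real.log (1 / lam) ^ 2 < 1 / 9 := by
  have h1 : Tendsto (fun lam : ℝ => 1 / lam) (𝓝[>] (0 : ℝ)) atTop := by
    simp_rw [one_div]
    exact tendsto_inv_nhdsGT_zero
  have h2 := (Real.tendsto_pow_log_div_mul_add_atTop 1 0 2 one_ne_zero).comp h1
  have h3 : ∀ᶠ lam in 𝓝[>] (0 : ℝ),
      Real.log (1 / lam) ^ 2 / (1 * (1 / lam) + 0) < 1 / 9 :=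
    h2.eventually (Iio_mem_nhds (by norm_num : (0 : ℝ) < 1 / 9))
  filter_upwards [h3, self_mem_nhdsWithin] with lam h hl
  have hl0 : 0 < lam := hl
  have e : Real.log (1 / lam) ^ 2 / (1 * (1 / lam) + 0) = lam * Real.log (1 / lam) ^ 2 := by
    rw [one_mul, add_zero, div_div_eq_mul_div, div_one, mul_comm]
  rwa [e] at h

theorem pf_LWB (hKRB : T_KRB) (hMCM : T_MCM) (hLFN : T_LFN) (hHKR : T_HKR) (hTLQ : T_TLQ)
    (hEND : Pool.Agent.H98.CE.T_END) : T_LWB := by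
  obtain ⟨K0, δ2, hK0, hδ2, hLF⟩ := hLFN
  obtain ⟨δ3, hδ3, hMC⟩ := hMCM K0 hK0
  have hK00 : 0 < K0 := by linarith
  refine ⟨1 / (600 * K0), by positivity, ?_⟩
  intro K hKz cK hcK hK μ hμ hexp hmean hvar
  obtain ⟨lam0, hlam0, hM⟩ := hMC μ hexp hmean hvar
  have hRG := tendsto_cell.eventually (hKRB K hKz cK hcK hK)
  have hs : ∀ᶠ lam in 𝓝[>] (0 : ℝ), lam < min lam0 (1 / 2) :=
    mem_nhdsWithin_of_mem_nhds (Iio_mem_nhds (lt_min hlam0 (by norm_num)))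
  filter_upwards [hRG, evt δ2 hδ2, evt δ3 hδ3, evl, hs, self_mem_nhdsWithin] with lam hR he2 he3
    hel hls hpos
  have hl0 : 0 < lam := hpos
  have hl1 : lam < lam0 := hls.trans_le (min_le_left _ _)
  have hl2 : lam < 1 / 2 := hls.trans_le (min_le_right _ _)
  set ℓ : ℕ := ⌈1 / lam ^ 2⌉₊ with hℓ
  set δ : ℝ := 1 / Real.log ℓ with hδ
  have hδ0 : 0 < δ := hR.δ0
  have hlogpos : 0 < Real.log ℓ := by
    rw [hδ] at hδ0
    exact one_div_pos.mp hδ0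
  have hlog : Real.log ℓ ≤ 3 * Real.log (1 / lam) := log_cell lam hl0 hl2.le
  set L : ℝ := Real.log (1 / lam) with hL
  have hL0 : 0 < L := by linarith
  have hlam2 : lam ≤ δ ^ 2 := by
    rw [hδ, div_pow, one_pow, le_div_iff₀ (by positivity)]
    have h1 : Real.log ℓ ^ 2 ≤ (3 * L) ^ 2 := pow_le_pow_left₀ hlogpos.le hlog 2
    have h2 : lam * Real.log ℓ ^ 2 ≤ lam * (3 * L) ^ 2 := mul_le_mul_of_nonneg_left h1 hl0.le
    nlinarith
  have hmc := hM lam δ 1 hl0 hl1 hδ0 he3 (by linarith) le_rfl hlam2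
  obtain ⟨n, s', hn, hs', hlt⟩ := hLF K 1 cK δ ℓ _ _ he2 hR hmc
  obtain ⟨hℓ1, hqℓ, -, -, -⟩ := hTLQ K 1 cK δ ℓ _ hR
  obtain ⟨hHK, hκ, -⟩ := hHKR K 1 cK δ ℓ _ hR
  have hδ1 : δ / 64 ≤ 1 := by
    have := hR.δ1
    linarith
  obtain ⟨f, hf0, hf⟩ := hEND 1 one_pos K hKz cK hcK hK μ hexp (cK / 2) _ (by positivity)
    hR.lo ℓ n (δ / 64) lam ((3 / 4 + δ ^ (1 / 4 : ℝ) / (300 * K0)) * lam) s' hℓ1 hqℓ
    (by positivity) hδ1 hHK hκ hn hs' hlt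
  have hh0 : 0 ≤ (3 / 4 + δ ^ (1 / 4 : ℝ) / (300 * K0)) * lam := by positivity
  have hsup : (3 / 4 + δ ^ (1 / 4 : ℝ) / (300 * K0)) * lam ≤ criticalCurve K μ lam :=
    le_csSup (localized_bddAbove μ K hexp lam hl0) ⟨hh0, f, hf0, hf⟩
  rw [le_div_iff₀ hl0]
  refine le_trans ?_ hsup
  refine mul_le_mul_of_nonneg_right ?_ hl0.le
  have hroot := root_le L δ hL0 (by
    rw [hδ]
    exact one_div_le_one_div_of_le hlogpos (by linarith))
  have h5 : 1 / (600 * K0) * L ^ (-(1 / 4) : ℝ) = 1 / 2 * L ^ (-(1 / 4) : ℝ) / (300 * K0) := by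
    field_simp
    norm_num
  rw [h5]
  have h6 : 1 / 2 * L ^ (-(1 / 4) : ℝ) / (300 * K0) ≤ δ ^ (1 / 4 : ℝ) / (300 * K0) :=
    div_le_div_of_nonneg_right hroot (by positivity)
  linarith

end Pool.Agent.H19.SLN
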